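import Pool.Agent.Helper62_GB.Stmt2
import Pool.Agent.Helper1_Gen.Bounds
import Pool.Agent.Helper1_Gen.ModelExists
import Pool.Agent.Helper1_Gen.Main

/-!
Module BNDS: bodies whose first eigenvalues are close to the first eigenvalues of a given body
have bounded diameter, and their area is bounded from below.
-/

namespace Pool.Agent.GB.H32

open MeasureTheory Complex Filter Topology ProbabilityTheory Pool.Agent.H16Iso Pool.Agent.H62T
open Pool.Agent.H16F Pool.Agent.H1Gen
open scoped ENNReal NNReal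

/-- a side is short if all the points are close to it -/
theorem side_le {K : Set ℂ} (hne : (interior K).Nonempty) {a b : ℂ} {Δ s : ℝ} (hΔ : 0 < Δ)
    (hs : 0 < s) (hl : ∀ l ∈ K, |det (b - a) (l - a)| ≤ Δ) (he : dirEig (interior K) 0 ≤ s ^ 2) :
    ‖b - a‖ ≤ 2 * s * Δ := by
  by_cases hab : b - a = 0
  · rw [hab, norm_zero]
    positivity
  have hn : 0 < ‖b - a‖ := norm_pos_iff.2 hab
  set ν : ℂ := I * (b - a) / ‖b - a‖ with hν
  have hν1 : ‖ν‖ = 1 := by
    rw [hν, norm_div, norm_mul, norm_I, one_mul, norm_real, norm_norm, div_self hn.ne']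
  have hfun : ∀ z : ℂ, (z * (starRingEnd ℂ) ν).re - (a * (starRingEnd ℂ) ν).re
      = det (b - a) (z - a) / ‖b - a‖ := by
    intro z
    rw [← sub_re, ← sub_mul]
    have h1 : (starRingEnd ℂ) ν = -I * (starRingEnd ℂ) (b - a) / ‖b - a‖ := by
      rw [hν, map_div₀, map_mul, conj_I, conj_ofReal]
    have h2 : (z - a) * (starRingEnd ℂ) ν
        = (((z - a) * (-I * (starRingEnd ℂ) (b - a)))) / ((‖b - a‖ : ℝ) : ℂ) := by
      rw [h1]; ring
    rw [h2, div_ofReal_re]
    congr 1
    unfold det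
    simp only [mul_re, mul_im, neg_re, neg_im, I_re, I_im, conj_re, conj_im]
    ring
  have hstrip : ∀ z ∈ interior K, |(z * (starRingEnd ℂ) ν).re - (a * (starRingEnd ℂ) ν).re|
      ≤ Δ / ‖b - a‖ := by
    intro z hz
    rw [hfun, abs_div, abs_of_pos hn]
    exact div_le_div_of_nonneg_right (hl z (interior_subset hz)) hn.le
  have h1 := dirEig_ge_of_strip isOpen_interior hne hν1 (h := Δ / ‖b - a‖) (by positivity) hstrip 0
  have h2 : ‖b - a‖ ^ 2 / (4 * Δ ^ 2) ≤ s ^ 2 := by
    calc ‖b - a‖ ^ 2 / (4 * Δ ^ 2) = 1 / (4 * (Δ / ‖b - a‖) ^ 2) := by field_simp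
      _ ≤ dirEig (interior K) 0 := h1
      _ ≤ s ^ 2 := he
  rw [div_le_iff₀ (by positivity)] at h2
  have h3 : ‖b - a‖ ^ 2 ≤ (2 * s * Δ) ^ 2 := by linarith only [h2]
  exact (pow_le_pow_iff_left₀ hn.le (by positivity) two_ne_zero).1 h3

theorem diam_le {C : Set ℂ} (hC : Convex ℝ C) {g : ℂ} {δ : ℝ} (hδ : 0 < δ)
    (hball : Metric.ball g δ ⊆ C) {K : ℕ} (hK : Lam / (δ / 2) ^ 2 < dirEig (interior C) K)
    {w : ℂ} (hw : w ∈ C) : ‖w - g‖ < 2 * (K + 1) * δ := by
  by_contra hD
  push Not at hD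
  have hD0 : 0 < ‖w - g‖ := lt_of_lt_of_le (by positivity) hD
  set D := ‖w - g‖ with hDdef
  have ht : ∀ m : Fin (K + 1), ((m : ℕ) : ℝ) * δ / D ≤ 1 / 2 := by
    intro m
    have hm : ((m : ℕ) : ℝ) ≤ K := by exact_mod_cast Nat.lt_succ_iff.1 m.2
    rw [div_le_iff₀ hD0]
    nlinarith only [hδ, hD, hm]
  have ht0 : ∀ m : Fin (K + 1), 0 ≤ ((m : ℕ) : ℝ) * δ / D := fun m => by positivity
  have h1 : dirEig (interior C) K ≤ Lam / (δ / 2) ^ 2 := by
    apply dirEig_le_of_balls (by positivity)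
      (fun m : Fin (K + 1) => g + (((m : ℕ) : ℝ) * δ / D) • (w - g))
    · intro m
      set t := ((m : ℕ) : ℝ) * δ / D with htdef
      have ht1 : t ≤ 1 / 2 := ht m
      have ht2 : 0 ≤ t := ht0 m
      apply interior_maximal _ Metric.isOpen_ball
      intro z hz
      rw [Metric.mem_ball, dist_eq_norm] at hz
      set p : ℂ := (1 - t)⁻¹ • (z - t • w) with hp
      have h1t : 0 < 1 - t := by linarith
      have hpg : p ∈ Metric.ball g δ := by
        rw [Metric.mem_ball, dist_eq_norm]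
        have e1 : p - g = (1 - t)⁻¹ • (z - (g + t • (w - g))) := by
          have e2 : g = (1 - t)⁻¹ • ((1 - t) • g) := by
            rw [smul_smul, inv_mul_cancel₀ h1t.ne', one_smul]
          conv_lhs => rw [hp, e2, ← smul_sub]
          congr 1
          simp only [real_smul]
          push_cast
          ring
        rw [e1, norm_smul, norm_inv, Real.norm_of_nonneg h1t.le, inv_mul_eq_div, div_lt_iff₀ h1t]
        nlinarith only [hz, hδ, ht1]
      have e3 : z = (1 - t) • p + t • w := by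
        rw [hp, smul_smul, mul_inv_cancel₀ h1t.ne', one_smul]
        ring
      rw [e3]
      exact hC (hball hpg) hw h1t.le ht2 (by ring)
    · intro i j hij
      rw [dist_eq_norm, add_sub_add_left_eq_sub, ← sub_smul, norm_smul, ← hDdef, ← sub_div,
        ← sub_mul, Real.norm_eq_abs, abs_div, abs_mul, abs_of_pos hδ, abs_of_pos hD0,
        div_mul_cancel₀ _ hD0.ne']
      have h2 : (1 : ℝ) ≤ |((i : ℕ) : ℝ) - ((j : ℕ) : ℝ)| := by
        have h3 : ((i : ℕ) : ℤ) - ((j : ℕ) : ℤ) ≠ 0 := by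
          intro h
          apply hij
          apply Fin.ext
          omega
        have h4 := Int.one_le_abs h3
        exact_mod_cast h4
      nlinarith
  linarith

/-- the eigenvalues of a bounded open set tend to infinity -/
theorem eig_unbounded {Ω : Set ℂ} (ho : IsOpen Ω) (hne : Ω.Nonempty)
    (hb : Bornology.IsBounded Ω) (c : ℝ) : ∃ k, c < dirEig Ω k := by
  obtain ⟨R0, hR0⟩ := hb.subset_ball 0
  set R : ℝ := max R0 1 with hR
  have hR1 : 0 < R := lt_of_lt_of_le one_pos (le_max_right _ _)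
  have hΩR : Ω ⊆ Metric.ball 0 R := hR0.trans (Metric.ball_subset_ball (le_max_left _ _))
  set v : Fin 3 → ℂ := ![⟨-(3 * R), -R⟩, ⟨3 * R, -R⟩, ⟨0, 2 * R⟩] with hv
  have v0 : v 0 = ⟨-(3 * R), -R⟩ := rfl
  have v1 : v 1 = ⟨3 * R, -R⟩ := rfl
  have v2 : v 2 = ⟨0, 2 * R⟩ := rfl
  have hccw : CCW v := by
    intro i j k hij hjk
    have hi : i = 0 := by omega
    have hj : j = 1 := by omega
    have hk : k = 2 := by omega
    subst hi hj hk
    simp only [v0, v1, v2, det, sub_re, sub_im]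
    nlinarith only [hR1]
  have hsub : Metric.ball (0 : ℂ) R ⊆ convexHull ℝ (Set.range v) := by
    intro z hz
    rw [mem_ball_zero_iff] at hz
    have hx := (abs_le.1 ((abs_re_le_norm z).trans hz.le))
    have hy := (abs_le.1 ((abs_im_le_norm z).trans hz.le))
    set γ : ℝ := (z.im + R) / (3 * R) with hγ
    set α : ℝ := (1 - γ - z.re / (3 * R)) / 2 with hα
    set β : ℝ := (1 - γ + z.re / (3 * R)) / 2 with hβ
    have hγ0 : 0 ≤ γ := div_nonneg (by linarith only [hy]) (by positivity)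
    have e1 : 1 - γ - z.re / (3 * R) = (2 * R - z.im - z.re) / (3 * R) := by
      rw [hγ]; field_simp; ring
    have e2 : 1 - γ + z.re / (3 * R) = (2 * R - z.im + z.re) / (3 * R) := by
      rw [hγ]; field_simp; ring
    have hα0 : 0 ≤ α := by
      rw [hα, e1]
      exact div_nonneg (div_nonneg (by linarith only [hx, hy]) (by positivity)) two_pos.le
    have hβ0 : 0 ≤ β := by
      rw [hβ, e2]
      exact div_nonneg (div_nonneg (by linarith only [hx, hy]) (by positivity)) two_pos.le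
    have hz' : z = α • v 0 + β • v 1 + γ • v 2 := by
      apply Complex.ext
      · simp only [v0, v1, v2, add_re, real_smul, mul_re, ofReal_re, ofReal_im]
        have : z.re = (β - α) * (3 * R) := by
          rw [hα, hβ]; field_simp; ring
        rw [this]; ring
      · simp only [v0, v1, v2, add_im, real_smul, mul_im, ofReal_re, ofReal_im]
        have h1 : z.im = 3 * R * γ - R := by
          rw [hγ]; field_simp; ring
        have h2 : α + β = 1 - γ := by rw [hα, hβ]; ring
        have h3 : β = 1 - γ - α := by linarith only [hα, hβ]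
        rw [h1, h3]; ring
    rw [hz']
    have := (convex_convexHull ℝ (Set.range v)).sum_mem (t := Finset.univ) (w := ![α, β, γ])
      (z := v)
      (by intro i _; fin_cases i <;> assumption)
      (by simp [Fin.sum_univ_succ]; linarith)
      (by intro i _; exact subset_convexHull ℝ _ ⟨i, rfl⟩)
    simpa [Fin.sum_univ_succ, add_assoc] using this
  have hΩv : Ω ⊆ poly v := hΩR.trans (interior_maximal hsub Metric.isOpen_ball)
  obtain ⟨Md⟩ := model_exists
  have ht : Tendsto (dirEig (poly v)) atTop atTop := tendsto_dirEig Md (m := 0) hccw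
  obtain ⟨k, hk⟩ := (ht.eventually_gt_atTop c).exists
  exact ⟨k, lt_of_lt_of_le hk (dirEig_mono' ho hne hΩv k)⟩

/-- BNDS -/
theorem bnds : BndsStatement := by
  intro K
  set c : ℕ → ℝ := fun k => dirEig (ins K.1) k with hc
  set s : ℝ := Real.sqrt (max (c 0 + 1) 1) with hs
  have hs0 : 0 < s := Real.sqrt_pos.2 (lt_of_lt_of_le one_pos (le_max_right _ _))
  have hs2 : c 0 + 1 ≤ s ^ 2 := by
    rw [hs, Real.sq_sqrt (le_trans zero_le_one (le_max_right _ _))]
    exact le_max_left _ _
  set δ : ℝ := 1 / (6 * s) with hδ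
  have hδ0 : 0 < δ := by positivity
  obtain ⟨K0, hK0⟩ := eig_unbounded (Ω := ins K.1) isOpen_interior K.2
    (K.1.isBounded.subset interior_subset) (Lam / (δ / 2) ^ 2 + 1)
  refine ⟨2 * (K0 + 1) * δ, δ ^ 2 * Real.pi, K0, by positivity, ?_⟩
  intro K' he
  -- a triangle of maximal area
  set C : Set ℂ := (K'.1 : Set ℂ) with hC
  have hcomp : IsCompact (C ×ˢ (C ×ˢ C)) := K'.1.isCompact.prod (K'.1.isCompact.prod K'.1.isCompact)
  have hCne : C.Nonempty := K'.1.nonempty
  have hcne : (C ×ˢ (C ×ˢ C)).Nonempty := hCne.prod (hCne.prod hCne)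
  obtain ⟨⟨a, b, d⟩, ⟨ha, hb, hd⟩, hmax⟩ := hcomp.exists_isMaxOn hcne
    (f := fun q : ℂ × ℂ × ℂ => |det (q.2.1 - q.1) (q.2.2 - q.1)|) (by
      apply Continuous.continuousOn
      unfold det
      fun_prop)
  have hmax' : ∀ x ∈ C, ∀ y ∈ C, ∀ z ∈ C,
      |det (y - x) (z - x)| ≤ |det (b - a) (d - a)| := by
    intro x hx y hy z hz
    have h1 : (x, y, z) ∈ C ×ˢ (C ×ˢ C) := Set.mk_mem_prod hx (Set.mk_mem_prod hy hz)
    exact hmax h1
  set D := det (b - a) (d - a) with hD
  have hint : (interior C).Nonempty := K'.2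
  have hDpos : 0 < |D| := by
    obtain ⟨p, hp⟩ := hint
    obtain ⟨ρ, hρ, hsub⟩ := Metric.isOpen_iff.1 isOpen_interior p hp
    have h1 : p + ((ρ / 2 : ℝ) : ℂ) ∈ C := by
      apply interior_subset
      apply hsub
      rw [Metric.mem_ball, dist_eq_norm, add_sub_cancel_left, norm_real,
        Real.norm_of_nonneg (by positivity)]
      linarith only [hρ]
    have h2 : p + ((ρ / 2 : ℝ) : ℂ) * I ∈ C := by
      apply interior_subset
      apply hsub
      rw [Metric.mem_ball, dist_eq_norm, add_sub_cancel_left, norm_mul, norm_I, mul_one, norm_real,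
        Real.norm_of_nonneg (by positivity)]
      linarith
    have h3 := hmax' p (interior_subset hp) _ h1 _ h2
    have h4 : det (p + ((ρ / 2 : ℝ) : ℂ) - p) (p + ((ρ / 2 : ℝ) : ℂ) * I - p) = (ρ / 2) ^ 2 := by
      rw [add_sub_cancel_left, add_sub_cancel_left]
      unfold det
      simp
      ring
    rw [h4, abs_of_pos (by positivity)] at h3
    exact lt_of_lt_of_le (by positivity) h3
  have hD0 : D ≠ 0 := abs_pos.1 hDpos
  have he0 : dirEig (interior C) 0 ≤ s ^ 2 := by
    have := (abs_le.1 (he 0 (Nat.zero_le _))).2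
    have h1 : dirEig (interior C) 0 - c 0 ≤ 1 := this
    linarith
  have s1 : ‖b - a‖ ≤ 2 * s * |D| :=
    side_le hint hDpos hs0 (fun l hl => hmax' a ha b hb l hl) he0
  have s2 : ‖d - b‖ ≤ 2 * s * |D| :=
    side_le hint hDpos hs0 (fun l hl => hmax' b hb d hd l hl) he0
  have s3 : ‖a - d‖ ≤ 2 * s * |D| :=
    side_le hint hDpos hs0 (fun l hl => hmax' d hd a ha l hl) he0
  have hball : Metric.ball ((a + b + d) / 3) δ ⊆ C :=
    ball_centroid hD hD0 hs0 s1 s2 s3 K'.1.convex ha hb hd
  have hKK : Lam / (δ / 2) ^ 2 < dirEig (interior C) K0 := by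
    have := (abs_le.1 (he K0 le_rfl)).1
    have h1 : -1 ≤ dirEig (interior C) K0 - c K0 := this
    have h2 : Lam / (δ / 2) ^ 2 + 1 < c K0 := hK0
    linarith only [hK0, h1]
  refine ⟨⟨(a + b + d) / 3, fun w hw => ?_⟩, ?_⟩
  · rw [Metric.mem_closedBall, dist_eq_norm]
    exact (diam_le K'.1.convex hδ0 hball hKK hw).le
  · have h1 : volume (Metric.ball ((a + b + d) / 3) δ) ≤ volume C := measure_mono hball
    have h2 : (volume (Metric.ball ((a + b + d) / 3) δ)).toReal = δ ^ 2 * Real.pi := by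
      rw [Complex.volume_ball, ENNReal.toReal_mul, ENNReal.toReal_pow,
        ENNReal.toReal_ofReal hδ0.le]
      simp
    rw [← h2]
    exact ENNReal.toReal_mono K'.1.isCompact.measure_lt_top.ne h1

end Pool.Agent.GB.H32
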